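import Pool.Agent.Q80.RA.Curves
import Pool.Agent.Q80.HC.Binary

/-!
MP_1dc56d_ag, Q1 and Q2: rationality and unirationality, for the projective varieties with a
generically finite map (onto the image) to the projective space of the binary forms of degree `n`, which
is ramified, to any order, for instance to order two, over the hyperplanes of the forms which vanish at
given points of the projective line. The number of points which is needed is linear in `n`: more than
`4 n` for the order two.

`V` is a projective variety in `P^N`, of any dimension and with any singularities, given by its function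
field `K` and its generic point `y` (`coords k y = ⊤`: the ratios of the coordinates generate `K`).
`φ 0, …, φ n` are forms of the same degree, which define a rational map from `V` to `P^n`, the space of
the forms `∑ l, f l * X ^ (n - l) * Y ^ l`. `discForm k n` is the discriminant of this form (up to the
factor `f n`).

Definitions: `RamV`, `GenFinV` (`Q80/HC/Pointed.lean`); `discForm` (`Y216/RncD.lean`); `NoUnirational`
(`Q80/RA/Curves.lean`): all rational maps from projective spaces to `V` are constant or have their image
in a certain proper closed subset of `V`; `Unirat`, `SpecialDom` (`Q80/RA/Spec.lean`): there is a dominant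
rational map from a projective space, or a special variety, to `V`; `PurelyTranscendental`
(`TH710/WH/Defs.lean`): `V` is rational.
-/

set_option autoImplicit false

namespace Pool.Agent.Results.MP_1dc56d_ag.BinaryFormCoversRationality

open MvPolynomial Pool.Agent.Y216 Pool.Agent.Q80.HC Pool.Agent.Q80.RA Pool.Agent.TH710.WH
open Pool.Agent.W602.GT (coords GeneralType)

/-- Let `k` be an algebraically closed field of characteristic zero, `n ≥ 1`, let `(u i : v i)`,
`i < q`, be distinct points of the projective line, and let `m i ≥ 1` be integers with
`2 * n < ∑ i, (1 - 1 / m i)` (for instance `m i ≥ 2` and `q > 4 * n`). Let `V` be a projective variety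
and let the forms `φ` of the same degree define a map from `V` to the projective space of the binary
forms of degree `n`, which is ramified to order at least `m i` over the hyperplane of the forms which
vanish at `(u i : v i)`, for all `i`.

* If the map is generically finite onto its image and the image is not contained in one of these
  hyperplanes, in the hyperplane `f n = 0` or in the discriminant hypersurface, then all rational maps
  from projective spaces to `V` are constant or have their image in a certain proper closed subset of
  `V`, and the following are equivalent: `V` is a point; `V` is rational; `V` is unirational.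
* If `V` is of dimension `n` and the map is dominant, then this holds, and there is no dominant
  rational map from a special variety to `V`. -/
theorem result {k : Type} [Field k] [IsAlgClosed k] [CharZero k] {n : ℕ} (hn : 1 ≤ n) {q : ℕ}
    (u v : Fin q → k) (huv : ∀ i j, i ≠ j → u i * v j ≠ u j * v i) (m : Fin q → ℕ)
    (hm : ∀ i, 1 ≤ m i) (hsum : 2 * (n : ℝ) < ∑ i, (1 - 1 / (m i : ℝ))) {K : Type} [Field K]
    [Algebra k K] {N : ℕ} (y : Fin (N + 1) → K) (hy : y ≠ 0) (hgen : coords k y = ⊤) {δ : ℕ}
    (φ : Fin (n + 1) → MvPolynomial (Fin (N + 1)) k) (_hφ : ∀ j, (φ j).IsHomogeneous δ)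
    (hR : RamV k y φ (fun i (l : Fin (n + 1)) => u i ^ (n - (l : ℕ)) * v i ^ (l : ℕ)) m) :
    (GenFinV k y φ →
      (∀ i, ∑ l : Fin (n + 1), algebraMap k K (u i ^ (n - (l : ℕ)) * v i ^ (l : ℕ)) *
        aeval y (φ l) ≠ 0) →
      aeval y (φ (Fin.last n)) ≠ 0 → aeval (fun j => aeval y (φ j)) (discForm k n) ≠ 0 →
      NoUnirational k y ∧
        [Algebra.trdeg k K = 0, PurelyTranscendental k K, Unirat k K].TFAE) ∧
    (Algebra.trdeg k K = n → aeval y (φ 0) ≠ 0 →
      AlgebraicIndependent k (fun j : Fin n => aeval y (φ j.succ) / aeval y (φ 0)) →
      NoUnirational k y ∧ ¬ SpecialDom k K) := by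
  obtain ⟨B, hB⟩ := curveIneq_rnc hn huv hm hsum
  have h4 : (1 : ℝ) ≤ n := by exact_mod_cast hn
  refine ⟨fun hfin hne hlast hdisc => ?_, fun htr hc0 hc => ?_⟩
  · have h1 := curveBound_cover hB hy hgen hfin hne (by
      rw [map_mul, aeval_X]
      exact mul_ne_zero hlast hdisc) hR
    exact ⟨noUnirational h1, rational_tfae hy hgen (noUnirational h1)⟩
  · obtain ⟨h1, h2⟩ := dominant_cover (rnc_genPos huv) hm (by linarith)
      (mul_ne_zero (X_ne_zero _) (discForm_ne hn))
      ((isHomogeneous_X _ _).mul discForm_homogeneous) hB hy hgen htr hc0 hc hR
    exact ⟨noUnirational h2, not_dominated_coords hgen hn h1⟩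

end Pool.Agent.Results.MP_1dc56d_ag.BinaryFormCoversRationality
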