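import Pool.Agent.Q80.RA.Spec

/-!
MP_1dc56d_ag, Q1 and Q2: rationality and unirationality, for the closed subvarieties of the projective
schemes with a finite morphism to projective space which is ramified over many general hypersurfaces.

Definitions: `FinCover`, `Ramified`, `SubVar` (`Q80/FH/Defs.lean`); `NoSpecial` (all rational maps from
special varieties to `X` are constant), `Unirat` (the function field embeds into a field of rational
functions), `SpecialDom` (dominated by a special variety) (`Q80/RA/Spec.lean`); `PurelyTranscendental`
(`TH710/WH/Defs.lean`); `Special` (`W602/GT/SpecDefs.lean`).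
-/

set_option autoImplicit false

namespace Pool.Agent.Results.MP_1dc56d_ag.RamifiedCoversRationality

open MvPolynomial Pool.Agent.Q80.FH Pool.Agent.Q80.RA Pool.Agent.TH710.WH
open Pool.Agent.W602.GT (Special)

/-- Let `k` be an algebraically closed field of characteristic zero (for instance the field of algebraic
numbers), `n, d ≥ 1` and `m ≥ 2`, `N + 1 = C(n + d, n)`, `2 N m ≤ K (m - 1)` and `q > C(N + K, N)`. Let
`F 1, …, F q` be general forms of degree `d` in `n + 1` variables and `X` a projective scheme over `k`
with a finite morphism to projective `n`-space which is ramified with the multiplicity at least `m` over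
the hypersurfaces `F i = 0`. Then all rational maps from special varieties to `X` are constant, and for
all closed subvarieties `V` of `X` the following are equivalent: `V` is a point; `V` is rational; `V` is
unirational; `V` is special; there is a dominant rational map from a special variety to `V`. -/
theorem result (k : Type) [Field k] [IsAlgClosed k] [CharZero k] {n d m N K q : ℕ} (hn : 1 ≤ n)
    (hd : 1 ≤ d) (hm : 2 ≤ m) (hN : N + 1 = (n + d).choose n) (hK : 2 * N * m ≤ K * (m - 1))
    (hq : (N + K).choose N < q) :
    ∃ Ψ : MvPolynomial (Fin q × Exps n d) k, Ψ ≠ 0 ∧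
      ∀ F : Fin q → MvPolynomial (Fin (n + 1)) k, (∀ i, (F i).IsHomogeneous d) →
        eval (fun x => coeff x.2.1 (F x.1)) Ψ ≠ 0 →
          ∀ (r : ℕ) (X : FinCover k n r), X.Ramified F m d → NoSpecial X ∧
            ∀ (L : Type) [Field L] [Algebra k L] (w : ℕ) (y : Fin (n + 1) → L) (z : Fin r → L),
              X.SubVar L w y z → [w = 0, PurelyTranscendental k L, Unirat k L,
                Special k L w (fun _ => False), SpecialDom k L].TFAE := by
  obtain ⟨Ψ, h1, h2⟩ := main_k k hn hd hm hN hK hq
  refine ⟨Ψ, h1, fun F hF hΨ r X hR => ?_⟩
  obtain ⟨B, hB⟩ := h2 F hF hΨ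
  have h3 := noSpecial ((hB r X).1 hR).2
  exact ⟨h3, fun L _ _ w y z hV => tfae h3 hV⟩

end Pool.Agent.Results.MP_1dc56d_ag.RamifiedCoversRationality
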