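import Mathlib
import Pool.Agent.Q324.SC.IdealsVote

/-!
# Rationality and unirationality over `ℚ̄`: few errors suffice

A variety over the field of algebraic numbers is given (up to conjugation) as an irreducible
component of the zero set of a system of polynomial equations with integral coefficients that
defines an integral variety over `ℚ`. It is shown that rationality, and unirationality, are
decidable as soon as some computable function decides them with relatively few errors: of the about
`M` systems of a given size it may err on `M ^ (1 - 1 / q)`, for an arbitrary fixed `q`.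

The reason: multiples of the first equation may be added to a system, and there are more systems of
this kind than there are errors. The majority gives the answer.
-/

set_option autoImplicit false

namespace Pool.Agent.Results.MP_1dc56d_ag.WorstCaseFromMostSystems

open Pool.Agent.Q324.SC.Idl MvPolynomial

/-- The field of the algebraic numbers. -/
abbrev Qbar : Type := AlgebraicClosure ℚ

/-- The function field of the variety with the prime ideal `P`. -/
abbrev FunctionField {n : ℕ} (P : Ideal (MvPolynomial (Fin n) Qbar)) : Type :=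
  FractionRing (MvPolynomial (Fin n) Qbar ⧸ P)

/-- Some irreducible component over `ℚ̄` of the zero set of the ideal `I` is rational: its function
field is purely transcendental. -/
def Rational (n : ℕ) (I : Ideal (MvPolynomial (Fin n) ℚ)) : Prop :=
  ∃ P ∈ (I.map (MvPolynomial.map (algebraMap ℚ Qbar))).minimalPrimes, ∃ d : ℕ,
    Nonempty (FunctionField P ≃ₐ[Qbar] FractionRing (MvPolynomial (Fin d) Qbar))

/-- Some irreducible component over `ℚ̄` of the zero set of the ideal `I` is unirational: its
function field embeds in a purely transcendental extension of finite degree of transcendence. -/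
def Unirational (n : ℕ) (I : Ideal (MvPolynomial (Fin n) ℚ)) : Prop :=
  ∃ P ∈ (I.map (MvPolynomial.map (algebraMap ℚ Qbar))).minimalPrimes, ∃ d : ℕ,
    Nonempty (FunctionField P →ₐ[Qbar] FractionRing (MvPolynomial (Fin d) Qbar))

/-- The question `Q` is decidable for the systems (with first equation not zero) that generate a
prime ideal over `ℚ`. -/
def Decidable' (Q : (n : ℕ) → Ideal (MvPolynomial (Fin n) ℚ) → Prop) : Prop :=
  ∃ f : ℕ × List Poly → Bool, Computable f ∧ ∀ n c, val n (c.getD 0 []) ≠ 0 →
    (J n c).IsPrime → (f (n, c) = true ↔ Q n (J n c))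

/-- The systems of `m` integral polynomials in `n` variables, of degree less than `D` in each
variable and with coefficients in `[-H, H]`, the first one not zero, that generate a prime ideal
over `ℚ`, and for which `f` gives the wrong answer to the question `Q` for some way of writing the
polynomials. -/
def Errors (Q : (n : ℕ) → Ideal (MvPolynomial (Fin n) ℚ) → Prop) (f : ℕ × List Poly → Bool)
    (n m D H : ℕ) : Set (List (MvPolynomial (Fin n) ℤ)) :=
  {F | F.length = m ∧ (∀ g ∈ F, (∀ i, degreeOf i g < D) ∧ ∀ e, |coeff e g| ≤ (H : ℤ)) ∧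
    ∃ c : List Poly, c.map (val n) = F ∧ val n (c.getD 0 []) ≠ 0 ∧ (J n c).IsPrime ∧
      ¬ (f (n, c) = true ↔ Q n (J n c))}

lemma general (Q : (n : ℕ) → Ideal (MvPolynomial (Fin n) ℚ) → Prop) (q : ℕ) (hq : 1 ≤ q) :
    Decidable' Q ↔ ∃ (f : ℕ × List Poly → Bool) (K : ℕ × ℕ × ℕ → ℕ), Computable f ∧
      Computable K ∧ ∀ n m D H : ℕ, (Errors Q f n m D H).encard ^ q
        ≤ ((K (n, m, D) * (H + 1) ^ ((q - 1) * m * D ^ n) : ℕ) : ℕ∞) := by
  obtain ⟨r, rfl⟩ : ∃ r, q = r + 1 := ⟨q - 1, by omega⟩
  rw [Nat.add_sub_cancel]
  constructor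
  · rintro ⟨f, hf, h⟩
    refine ⟨f, fun _ => 0, hf, Computable.const 0, fun n m D H => ?_⟩
    have h1 : Errors Q f n m D H = ∅ := by
      ext F
      simp only [Errors, Set.mem_setOf_eq, Set.mem_empty_iff_false, iff_false]
      rintro ⟨_, _, c, _, h2, h3, h4⟩
      exact h4 (h n c h2 h3)
    rw [h1, Set.encard_empty, zero_pow (by omega)]
    exact zero_le
  · rintro ⟨f, K, hf, hK, h⟩
    exact correct (A := f) (K := K) r hf hK (Pr := fun n I => I.IsPrime) (Q := Q)
      (fun n m D H => h n m D H)

/-- For every `q ≥ 1`: (1) rationality over `ℚ̄` is decidable if and only if some computable function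
decides it with `E` errors among the systems of `m` equations in `n` variables, of degree less than
`D` in each variable, with coefficients in `[-H, H]`, where
`E ^ q ≤ K (n, m, D) (H + 1) ^ ((q - 1) m D ^ n)` for a computable `K`; (2) the same for
unirationality; (3) the same for every question on ideals. -/
theorem result (q : ℕ) (hq : 1 ≤ q) :
    (Decidable' Rational ↔ ∃ (f : ℕ × List Poly → Bool) (K : ℕ × ℕ × ℕ → ℕ), Computable f ∧
      Computable K ∧ ∀ n m D H : ℕ, (Errors Rational f n m D H).encard ^ q
        ≤ ((K (n, m, D) * (H + 1) ^ ((q - 1) * m * D ^ n) : ℕ) : ℕ∞)) ∧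
    (Decidable' Unirational ↔ ∃ (f : ℕ × List Poly → Bool) (K : ℕ × ℕ × ℕ → ℕ), Computable f ∧
      Computable K ∧ ∀ n m D H : ℕ, (Errors Unirational f n m D H).encard ^ q
        ≤ ((K (n, m, D) * (H + 1) ^ ((q - 1) * m * D ^ n) : ℕ) : ℕ∞)) ∧
    ∀ Q : (n : ℕ) → Ideal (MvPolynomial (Fin n) ℚ) → Prop, (Decidable' Q ↔
      ∃ (f : ℕ × List Poly → Bool) (K : ℕ × ℕ × ℕ → ℕ), Computable f ∧
      Computable K ∧ ∀ n m D H : ℕ, (Errors Q f n m D H).encard ^ q
        ≤ ((K (n, m, D) * (H + 1) ^ ((q - 1) * m * D ^ n) : ℕ) : ℕ∞)) :=
  ⟨general _ q hq, general _ q hq, fun Q => general Q q hq⟩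

end Pool.Agent.Results.MP_1dc56d_ag.WorstCaseFromMostSystems
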